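import Pool.Agent.N931.PN.Stm
import Pool.Agent.N144.EW.DetA

/-!
# Project PN (helper931), part F2: two arms from a flip (helper401)
-/

set_option autoImplicit false

namespace Pool.Agent.N401.PN.F2

open H974 H12S H389NS H984N H984P H342P Finset Pool.Agent.N931.PN
open Pool.Agent.N116.EW
open Pool.Agent.N144.EW

/-- `NX` does not depend on the edges of the inner box -/
theorem nx_congr {D : Dm} {z : Vtx} {d R : ℕ} {F F' : Finset Edg}
    (h : ∀ g, g ∉ blk z d → (g ∈ F ↔ g ∈ F')) : NX D z d R F ↔ NX D z d R F' := by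
  have h1 : (↑F \ ↑(blk z d) : Set Edg) = ↑F' \ ↑(blk z d) := by
    ext g
    constructor
    · rintro ⟨h1, h2⟩; exact ⟨(h g h2).1 h1, h2⟩
    · rintro ⟨h1, h2⟩; exact ⟨(h g h2).2 h1, h2⟩
  have h2 : {e | e ∈ D.edges ∧ e ∉ D.cfg F ∧ e ∉ blk z d} =
      {e | e ∈ D.edges ∧ e ∉ D.cfg F' ∧ e ∉ blk z d} := by
    ext g
    constructor
    · rintro ⟨h1, h2, h3⟩
      exact ⟨h1, fun h4 => h2 (h4.imp (h g h3).2 id), h3⟩
    · rintro ⟨h1, h2, h3⟩
      exact ⟨h1, fun h4 => h2 (h4.imp (h g h3).1 id), h3⟩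
  unfold NX
  rw [h1, h2]

theorem main : S_HX → S_F2 := by
  intro hHX D hD e he F hF k d R hd hEV
  have hd' : (1 : ℤ) ≤ d := by exact_mod_cast hd
  have heb : e ∈ blk (src e) d :=
    blk_iff.2 ⟨(end_near (Or.inl rfl)).trans hd', (end_near (Or.inr rfl)).trans hd'⟩
  unfold EV at hEV
  split_ifs at hEV with hk
  · have h1 := hHX D hD (F.erase e) ((erase_subset _ _).trans hF) (src e) d R hd ⟨e, hEV, heb⟩
    refine (nx_congr fun g hg => ?_).1 h1
    have hge : g ≠ e := fun h => hg (h ▸ heb)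
    rw [mem_erase]
    exact and_iff_right hge
  · have hc : ∀ g, g ∉ blk (src e) d → (g ∈ insert e F \ {e} ↔ g ∈ F) := by
      intro g hg
      have hge : g ≠ e := fun h => hg (h ▸ heb)
      rw [mem_sdiff, mem_singleton, mem_insert]
      constructor
      · rintro ⟨h1 | h1, _⟩
        · exact absurd h1 hge
        · exact h1
      · exact fun h => ⟨Or.inr h, hge⟩
    have key : ∀ e' : Edg, e' ∈ insert e F → e' ∉ insert e F \ {e} → e' = e := by
      intro e' h1 h2
      by_contra h3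
      exact h2 (mem_sdiff.2 ⟨h1, fun h => h3 (mem_singleton.1 h)⟩)
    rcases hEV with h | h
    · obtain ⟨e', _, h1, h2, _, h3⟩ := badV_sub hD (Subset.refl _) sdiff_subset
        (insert_subset he hF) h
      have h4 := key e' h1 h2
      subst h4
      exact (nx_congr hc).1 (h3 d R hd)
    · obtain ⟨e', _, h1, h2, _, h3⟩ := badW_sub hD (Subset.refl _) sdiff_subset
        (insert_subset he hF) h
      have h4 := key e' h1 h2
      subst h4
      exact (nx_congr hc).1 (h3 d R hd)

end Pool.Agent.N401.PN.F2
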