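import Pool.Agent.N931.PN.StmF

/-!
# Project PN (helper931), part MB: many blocks (helper401)
-/

set_option autoImplicit false

namespace Pool.Agent.N401.PN.MB

open H974 H12S H389NS Finset Pool.Agent.N931.PN

theorem main : S_BW → S_MB := by
  intro hBW S L hL f β n hn
  have hn0 : (0 : ℝ) < n := by exact_mod_cast hn
  rw [le_div_iff₀ hn0]
  -- the number of blocks as a sum
  have h1 : (∑ T ∈ L.powerset.filter (fun T => n < (T.image β).card), (wal S f T) ^ 2) * n ≤
      ∑ T ∈ L.powerset, ((T.image β).card : ℝ) * (wal S f T) ^ 2 := by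
    rw [sum_mul]
    refine le_trans (b := ∑ T ∈ L.powerset.filter (fun T => n < (T.image β).card),
      ((T.image β).card : ℝ) * (wal S f T) ^ 2) ?_ ?_
    · refine sum_le_sum fun T hT => ?_
      have h2 : (n : ℝ) ≤ ((T.image β).card : ℝ) := by exact_mod_cast (mem_filter.1 hT).2.le
      rw [mul_comm]
      exact mul_le_mul_of_nonneg_right h2 (sq_nonneg _)
    · exact sum_le_sum_of_subset_of_nonneg (filter_subset _ _)
        fun T _ _ => mul_nonneg (Nat.cast_nonneg _) (sq_nonneg _)
  refine h1.trans ?_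
  have h3 : ∀ T ∈ L.powerset, ((T.image β).card : ℝ) * (wal S f T) ^ 2 =
      ∑ i ∈ L.image β, if i ∈ T.image β then (wal S f T) ^ 2 else 0 := by
    intro T hT
    rw [← sum_filter]
    have h4 : (L.image β).filter (fun i => i ∈ T.image β) = T.image β := by
      ext i
      simp only [mem_filter, and_iff_right_iff_imp]
      intro hi
      exact image_subset_image (mem_powerset.1 hT) hi
    rw [h4, sum_const, nsmul_eq_mul]
  rw [sum_congr rfl h3, sum_comm]
  refine sum_le_sum fun i _ => ?_
  have hB : L.filter (fun e => β e = i) ⊆ S := (filter_subset _ _).trans hL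
  refine le_trans ?_ (hBW S _ hB f)
  rw [← sum_filter]
  refine sum_le_sum_of_subset_of_nonneg ?_ fun T _ _ => sq_nonneg _
  intro T hT
  rw [mem_filter, mem_powerset] at hT ⊢
  refine ⟨hT.1.trans hL, ?_⟩
  obtain ⟨e, he, hei⟩ := mem_image.1 hT.2
  rw [Finset.not_disjoint_iff]
  exact ⟨e, he, mem_filter.2 ⟨hT.1 he, hei⟩⟩

end Pool.Agent.N401.PN.MB
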